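import Pool.Agent.H70.SB1

namespace Pool.Agent.Results.MP_89350a_an.Yes

open Pool.Agent.H70.SB

theorem result (𝕜 : Type) [RCLike 𝕜] :
    ∃ τ : TopologicalSpace (SB 𝕜 C(ℕ → Bool, 𝕜)), Admissible τ ∧ ∃ h, Sel τ h :=
  main

end Pool.Agent.Results.MP_89350a_an.Yes
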